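import Mathlib.Analysis.SpecialFunctions.Trigonometric.Inverse
import Mathlib.Analysis.SpecialFunctions.Trigonometric.DerivHyp
import Mathlib.Tactic

/-!
# The spiral in the order-`k` triangular tiling has `⌊U_{d(k)}(n)⌋` edges (MP_780082_co)
-/

namespace Pool.Agent.Results.MP_780082_co.SpiralCount

/-- Degree of the vertex `v` in the graph with edge list `E`. -/
def deg (E : Finset (ℕ × ℕ)) (v : ℕ) : ℕ := (E.filter fun e => e.1 = v ∨ e.2 = v).card

/-- The first vertex (`1, 2, 3, …`) with fewer than `k` neighbours. -/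
noncomputable def firstOpen (k : ℕ) (E : Finset (ℕ × ℕ)) : ℕ := sInf {v | 1 ≤ v ∧ deg E v < k}

/-- Joining the new vertex `m + 1` to `m` and to `c`, and, if this gives `c` exactly `k`
neighbours, also to `c + 1`. -/
def addVertex (k m c : ℕ) (E : Finset (ℕ × ℕ)) : Finset (ℕ × ℕ) :=
  if deg (insert (m, m + 1) (insert (c, m + 1) E)) c = k then
    insert (c + 1, m + 1) (insert (m, m + 1) (insert (c, m + 1) E))
  else insert (m, m + 1) (insert (c, m + 1) E)

/-- Edges of the spiral with vertices `1, …, n`: a new vertex is joined to the previous one and to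
the first vertex `c` that has fewer than `k` neighbours; if `c` then has `k` neighbours, the new
vertex is joined to `c + 1` as well. -/
noncomputable def spiral (k : ℕ) : ℕ → Finset (ℕ × ℕ)
  | 0 => ∅
  | 1 => ∅
  | n + 2 => addVertex k (n + 1) (firstOpen k (spiral k (n + 1))) (spiral k (n + 1))

/-! ### The arithmetic of the quadratic form -/

/-- The symmetric quadratic polynomial `a² + n² - K a n - 6 a - 6 n + K + 10`. -/
def f (K a n : ℤ) : ℤ := a ^ 2 + n ^ 2 - K * a * n - 6 * a - 6 * n + K + 10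

lemma f_symm (K a n : ℤ) : f K a n = f K n a := by unfold f; ring

/-- The other root. -/
lemma f_vieta (K a n : ℤ) : f K (K * n + 6 - a) n = f K a n := by unfold f; ring

lemma f_mono {K a b n : ℤ} (hab : a ≤ b) (h : a + b ≤ K * n + 6) : f K b n ≤ f K a n := by
  have : f K a n - f K b n = (b - a) * (K * n + 6 - (a + b)) := by unfold f; ring
  have h2 : 0 ≤ (b - a) * (K * n + 6 - (a + b)) := mul_nonneg (by linarith) (by linarith)
  linarith

lemma f_strict {K a b n : ℤ} (hab : a < b) (h : a + b < K * n + 6) : f K b n < f K a n := by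
  have : f K a n - f K b n = (b - a) * (K * n + 6 - (a + b)) := by unfold f; ring
  have h2 : 0 < (b - a) * (K * n + 6 - (a + b)) := mul_pos (by linarith) (by linarith)
  linarith

lemma f_diag {K n : ℤ} (hK : 3 ≤ K) (hn : 2 ≤ n) : f K n n < 0 := by
  unfold f
  nlinarith [mul_nonneg (by linarith : (0:ℤ) ≤ K - 3) (by nlinarith : (0:ℤ) ≤ n ^ 2 - 1)]

lemma f_zero {K n : ℤ} (hK : 3 ≤ K) : 0 < f K 0 n := by
  unfold f
  nlinarith [sq_nonneg (n - 3)]

/-- The number of vertices of full degree in the spiral on `n ≥ 2` vertices. -/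
noncomputable def I (K n : ℕ) : ℕ := Nat.findGreatest (fun a : ℕ => 0 ≤ f K a n) n

lemma I_le (K n : ℕ) : I K n ≤ n := Nat.findGreatest_le n

lemma f_I {K : ℕ} (hK : 3 ≤ K) (n : ℕ) : 0 ≤ f K (I K n) n := by
  have h0 : (0 : ℤ) ≤ f K (0 : ℕ) n := by
    have := f_zero (K := (K : ℤ)) (n := n) (by exact_mod_cast hK)
    simpa using this.le
  exact Nat.findGreatest_spec (P := fun a : ℕ => 0 ≤ f K a n) (Nat.zero_le n) h0

lemma le_I_iff {K : ℕ} (hK : 3 ≤ K) {n a : ℕ} (ha : a ≤ n) : a ≤ I K n ↔ 0 ≤ f K a n := by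
  constructor
  · intro h
    refine (f_I hK n).trans (f_mono (by exact_mod_cast h) ?_)
    have h1 := I_le K n
    have h2 : (3 : ℤ) * n ≤ K * n := mul_le_mul_of_nonneg_right (by exact_mod_cast hK) (by positivity)
    have h3 : (a : ℤ) ≤ n := by exact_mod_cast ha
    have h4 : ((I K n : ℕ) : ℤ) ≤ n := by exact_mod_cast h1
    have h5 : (0 : ℤ) ≤ n := by positivity
    linarith
  · intro h
    exact Nat.le_findGreatest (P := fun a : ℕ => 0 ≤ f K a n) ha h

/-- The vertex that completes the vertex `j`. -/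
noncomputable def T (K j : ℕ) : ℕ := if j = 0 then 2 else K * j + 6 - I K j

lemma T_zero (K : ℕ) : T K 0 = 2 := by simp [T]

lemma T_add {K j : ℕ} (hK : 3 ≤ K) (hj : 1 ≤ j) : T K j + I K j = K * j + 6 := by
  have h1 := I_le K j
  have h2 : j ≤ K * j := Nat.le_mul_of_pos_left j (by omega)
  unfold T
  rw [if_neg (by omega)]
  omega

lemma T_ge {K j : ℕ} (hK : 3 ≤ K) (hj : 1 ≤ j) : 2 * j + 6 ≤ T K j := by
  have h1 := I_le K j
  have h2 : 3 * j ≤ K * j := Nat.mul_le_mul_right j hK
  have h3 := T_add hK hj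
  omega

/-- The Galois connection between `I` and `T`. -/
lemma galois {K : ℕ} (hK : 3 ≤ K) {j n : ℕ} (hj : 1 ≤ j) (hn : 2 ≤ n) :
    j ≤ I K n ↔ T K j ≤ n := by
  have hK' : (3 : ℤ) ≤ K := by exact_mod_cast hK
  have hj' : (1 : ℤ) ≤ j := by exact_mod_cast hj
  have hn' : (2 : ℤ) ≤ n := by exact_mod_cast hn
  rcases lt_or_ge n j with hjn | hjn
  · have h1 := I_le K n
    have h2 := T_ge hK hj
    constructor <;> intro h <;> omega
  rw [le_I_iff hK hjn]
  have hjn' : (j : ℤ) ≤ n := by exact_mod_cast hjn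
  have hT : (T K j : ℤ) + I K j = K * j + 6 := by exact_mod_cast T_add hK hj
  have hKj : (3 : ℤ) * j ≤ K * j := mul_le_mul_of_nonneg_right hK' (by linarith)
  have hIj : ((I K j : ℕ) : ℤ) ≤ j := by exact_mod_cast I_le K j
  constructor
  · intro h
    by_contra hcon
    have hcon' : (n : ℤ) < T K j := by exact_mod_cast (not_le.1 hcon)
    -- `n' = K j + 6 - n` exceeds `I j`
    have e1 : 0 ≤ f K (K * j + 6 - n) j := by
      rw [f_vieta, f_symm]
      exact h
    have e2 : ((I K j : ℕ) : ℤ) < K * j + 6 - n := by linarith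
    rcases le_or_gt ((K : ℤ) * j + 6 - n) j with h3 | h3
    · have h4 : (0 : ℤ) ≤ K * j + 6 - n := by
        have : (0 : ℤ) ≤ ((I K j : ℕ) : ℤ) := by positivity
        linarith
      obtain ⟨m, hm⟩ := Int.eq_ofNat_of_zero_le h4
      rw [hm] at e1 e2 h3
      have h5 : m ≤ j := by exact_mod_cast h3
      have h6 : m ≤ I K j := (le_I_iff hK h5).2 e1
      have h7 : I K j < m := by exact_mod_cast e2
      omega
    · -- strictly between `j` and `K j + 6 - j`, or equal to the latter
      rcases lt_or_eq_of_le hjn' with h4 | h4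
      · have e3 : f K (K * j + 6 - n) j < f K j j := f_strict h3 (by linarith)
        rcases le_or_gt (2 : ℤ) j with h5 | h5
        · have := f_diag hK' h5
          linarith
        · have h6 : (j : ℤ) = 1 := by linarith
          rw [h6] at e3 e1
          have : f (K : ℤ) 1 1 = 0 := by unfold f; ring
          linarith
      · have h5 := f_diag hK' (n := n) hn'
        rw [h4] at h
        linarith
  · intro h
    have h' : (T K j : ℤ) ≤ n := by exact_mod_cast h
    have e1 : (K : ℤ) * j + 6 - n ≤ I K j := by linarith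
    rw [f_symm, ← f_vieta]
    refine (f_I hK j).trans (f_mono e1 ?_)
    linarith

lemma I_le_sub {K : ℕ} (hK : 3 ≤ K) {n : ℕ} (hn : 2 ≤ n) : I K n + 2 ≤ n := by
  rcases Nat.eq_zero_or_pos (I K n) with h | h
  · omega
  · have h1 := (galois hK h hn).1 le_rfl
    have h2 := T_ge hK h
    omega

lemma I_one {K : ℕ} (hK : 3 ≤ K) : I K 1 = 1 := by
  apply le_antisymm (I_le K 1)
  rw [le_I_iff hK le_rfl]
  unfold f
  push_cast
  ring_nf
  exact le_rfl

lemma I_mono {K : ℕ} (hK : 3 ≤ K) {n : ℕ} (hn : 2 ≤ n) : I K n ≤ I K (n + 1) := by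
  rcases Nat.eq_zero_or_pos (I K n) with h | h
  · omega
  · have h1 := (galois hK h hn).1 le_rfl
    exact (galois hK h (by omega)).2 (by omega)

lemma f_I_succ {K : ℕ} (hK : 3 ≤ K) {n : ℕ} (hn : 1 ≤ n) : f K (I K n + 1) n < 0 := by
  rcases Nat.lt_or_ge n 2 with h | h
  · have : n = 1 := by omega
    subst this
    rw [I_one hK]
    unfold f
    push_cast
    nlinarith
  · have h1 := I_le_sub hK h
    by_contra hcon
    push Not at hcon
    have h2 : I K n + 1 ≤ I K n := (le_I_iff hK (by omega)).2 (by push_cast; exact hcon)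
    omega

lemma I_succ_le {K : ℕ} (hK : 3 ≤ K) {n : ℕ} (hn : 2 ≤ n) : I K (n + 1) ≤ I K n + 1 := by
  by_contra hcon
  push Not at hcon
  have h1 := I_le_sub hK hn
  have h2 : I K n + 2 ≤ I K (n + 1) := by omega
  rw [le_I_iff hK (by omega)] at h2
  have h3 := f_I_succ hK (n := n) (by omega)
  have h4 : f K ((I K n + 2 : ℕ) : ℤ) ((n + 1 : ℕ) : ℤ) = f K (I K n + 1) n -
      ((K : ℤ) - 2) * (I K n + 1 + n + 1) - 12 := by
    unfold f
    push_cast
    ring
  have h5 : (0 : ℤ) ≤ ((K : ℤ) - 2) * (I K n + 1 + n + 1) := by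
    have : (3 : ℤ) ≤ K := by exact_mod_cast hK
    exact mul_nonneg (by linarith) (by positivity)
  linarith

lemma I_two {K : ℕ} (hK : 3 ≤ K) : I K 2 = 0 := by
  have := I_le_sub hK (n := 2) le_rfl
  omega

lemma T_one {K : ℕ} (hK : 3 ≤ K) : T K 1 = K + 5 := by
  have := T_add hK (j := 1) le_rfl
  rw [I_one hK] at this
  omega

lemma T_two {K : ℕ} (hK : 3 ≤ K) : T K 2 = 2 * K + 6 := by
  have := T_add hK (j := 2) (by omega)
  rw [I_two hK] at this
  omega

/-- Degree gained from earlier vertices at creation. -/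
noncomputable def early (K v : ℕ) : ℕ :=
  if v ≤ 1 then 0 else if v = 2 then 1 else 2 + (I K v - I K (v - 1))

/-- The gap relation: a vertex completed by `T K c` has degree `K + 4`. -/
lemma gap {K : ℕ} (hK : 3 ≤ K) {c : ℕ} (hc : 1 ≤ c) :
    early K c + (if 2 ≤ c then 1 else 0) + (T K c + 1 - T K (c - 1)) = K + 4 ∧
      T K (c - 1) < T K c := by
  rcases Nat.lt_or_ge c 2 with h | h
  · have : c = 1 := by omega
    subst this
    simp only [early, T_one hK, Nat.sub_self, T_zero]
    norm_num
    omega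
  rcases Nat.lt_or_ge c 3 with h2 | h2
  · have : c = 2 := by omega
    subst this
    simp only [early, T_two hK, T_one hK, show 2 - 1 = 1 from rfl]
    norm_num
    omega
  · obtain ⟨b, rfl⟩ : ∃ b, c = b + 1 := ⟨c - 1, by omega⟩
    have hb : 2 ≤ b := by omega
    have h3 := T_add hK (j := b) (by omega)
    have h4 := T_add hK (j := b + 1) (by omega)
    have h5 := I_mono hK hb
    have h6 := I_succ_le hK hb
    have h7 : K * (b + 1) = K * b + K := by ring
    rw [h7] at h4
    unfold early
    rw [if_neg (by omega), if_neg (by omega), if_pos (by omega)]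
    simp only [Nat.add_sub_cancel]
    omega

lemma T_strict {K : ℕ} (hK : 3 ≤ K) {a b : ℕ} (hab : a < b) : T K a < T K b := by
  induction b with
  | zero => omega
  | succ b ih =>
    have h1 := (gap hK (c := b + 1) (by omega)).2
    simp only [Nat.add_sub_cancel] at h1
    rcases Nat.lt_or_ge a b with h | h
    · exact (ih h).trans h1
    · have : a = b := by omega
      rw [this]
      exact h1

/-- The degree of the vertex `v` in the spiral on `n` vertices. -/
noncomputable def Dg (K n v : ℕ) : ℕ :=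
  if v = 0 ∨ n < v then 0 else if v ≤ I K n then K + 4 else
    early K v + (if 2 ≤ v ∧ v < n then 1 else 0) + (n + 1 - T K (v - 1))

lemma Dg_open {K : ℕ} (hK : 3 ≤ K) {n : ℕ} (hn : 2 ≤ n) : Dg K n (I K n + 1) < K + 4 := by
  have h1 := I_le_sub hK hn
  have hg := gap hK (c := I K n + 1) (by omega)
  have h2 : ¬ T K (I K n + 1) ≤ n := by
    rw [← galois hK (by omega) hn]
    omega
  unfold Dg
  rw [if_neg (by omega), if_neg (by omega)]
  obtain ⟨hg1, hg2⟩ := hg
  simp only [Nat.add_sub_cancel] at hg1 hg2 ⊢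
  split_ifs at hg1 ⊢ <;> omega

lemma Dg_closed {K n v : ℕ} (h0 : 1 ≤ v) (hv : v ≤ I K n) : Dg K n v = K + 4 := by
  have := I_le K n
  unfold Dg
  rw [if_neg (by omega), if_pos hv]

/-- The recursion for the degrees. -/
lemma Dg_step {K : ℕ} (hK : 3 ≤ K) {n : ℕ} (hn : 2 ≤ n) {c : ℕ} (hc : c = I K n + 1) {v : ℕ} :
    Dg K (n + 1) v = Dg K n v + (if n = v ∨ n + 1 = v then 1 else 0) +
      (if c = v ∨ n + 1 = v then 1 else 0) +
      (if T K c = n + 1 ∧ (c + 1 = v ∨ n + 1 = v) then 1 else 0) := by
  have h1 := I_le_sub hK hn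
  have h2 := I_mono hK hn
  have h3 := I_succ_le hK hn
  have hI2 : I K n + 1 ≤ I K (n + 1) ↔ T K c ≤ n + 1 := by
    rw [hc]
    exact galois hK (by omega) (by omega)
  have h4 : ¬ T K c ≤ n := by
    rw [hc, ← galois hK (by omega) hn]
    omega
  have hTc : 2 * c + 6 ≤ T K c := T_ge hK (by omega)
  have hcn : c + 1 ≤ n := by omega
  have h5 : T K (c - 1) ≤ n := by
    rw [hc, Nat.add_sub_cancel]
    rcases Nat.eq_zero_or_pos (I K n) with h | h
    · rw [h, T_zero]
      exact hn
    · exact (galois hK h hn).1 le_rfl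
  have hgap := gap hK (c := c) (by omega)
  rcases Nat.eq_zero_or_pos v with hv0 | hv0
  · subst hv0
    have e0 : ∀ m, Dg K m 0 = 0 := fun m => by unfold Dg; rw [if_pos (Or.inl rfl)]
    rw [e0, e0, if_neg (by omega), if_neg (by omega), if_neg (by omega)]
  -- new vertex
  rcases Nat.lt_trichotomy v (n + 1) with hv | hv | hv
  rotate_left
  · subst hv
    have hT : 2 * n + 6 ≤ T K (n + 1 - 1) := by
      rw [Nat.add_sub_cancel]
      exact T_ge hK (by omega)
    have e1 : early K (n + 1) = 2 + (I K (n + 1) - I K n) := by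
      unfold early
      rw [if_neg (by omega), if_neg (by omega), Nat.add_sub_cancel]
    have e2 : Dg K n (n + 1) = 0 := by unfold Dg; rw [if_pos (by omega)]
    have e3 : Dg K (n + 1) (n + 1) = early K (n + 1) := by
      unfold Dg
      rw [if_neg (show ¬ (n + 1 = 0 ∨ n + 1 < n + 1) by omega),
        if_neg (show ¬ n + 1 ≤ I K (n + 1) by omega),
        if_neg (show ¬ (2 ≤ n + 1 ∧ n + 1 < n + 1) by omega)]
      omega
    rw [e2, e3, e1, if_pos (by omega), if_pos (by omega)]
    by_cases h6 : T K c = n + 1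
    · rw [if_pos ⟨h6, Or.inr rfl⟩]
      have := hI2.2 h6.le
      omega
    · rw [if_neg (show ¬ (T K c = n + 1 ∧ (c + 1 = n + 1 ∨ n + 1 = n + 1)) from
        fun h => h6 h.1)]
      have : ¬ (I K n + 1 ≤ I K (n + 1)) := by
        rw [hI2]
        omega
      omega
  · have e2 : Dg K n v = 0 := by unfold Dg; rw [if_pos (by omega)]
    have e3 : Dg K (n + 1) v = 0 := by unfold Dg; rw [if_pos (by omega)]
    rw [e2, e3, if_neg (by omega), if_neg (by omega), if_neg (by omega)]
  -- old vertices
  have hvn : v ≤ n := by omega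
  rcases Nat.lt_trichotomy v c with hvc | hvc | hvc
  · -- closed vertices
    rw [Dg_closed (by omega) (by omega), Dg_closed (by omega) (by omega), if_neg (by omega),
      if_neg (by omega), if_neg (by omega)]
  · -- the current vertex
    rw [hvc]
    have e2 : Dg K n c = early K c + (if 2 ≤ c then 1 else 0) + (n + 1 - T K (c - 1)) := by
      unfold Dg
      rw [if_neg (show ¬ (c = 0 ∨ n < c) by omega), if_neg (show ¬ c ≤ I K n by omega)]
      split_ifs <;> omega
    rw [e2, if_neg (show ¬ (n = c ∨ n + 1 = c) by omega),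
      if_pos (show c = c ∨ n + 1 = c by omega),
      if_neg (show ¬ (T K c = n + 1 ∧ (c + 1 = c ∨ n + 1 = c)) by omega)]
    obtain ⟨hg1, hg2⟩ := hgap
    by_cases h6 : T K c = n + 1
    · have := hI2.2 h6.le
      rw [Dg_closed (by omega) (by omega)]
      omega
    · have h7 : ¬ (I K n + 1 ≤ I K (n + 1)) := by
        rw [hI2]
        omega
      have e3 : Dg K (n + 1) c =
          early K c + (if 2 ≤ c then 1 else 0) + (n + 1 + 1 - T K (c - 1)) := by
        unfold Dg
        rw [if_neg (show ¬ (c = 0 ∨ n + 1 < c) by omega),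
          if_neg (show ¬ c ≤ I K (n + 1) by omega)]
        split_ifs <;> omega
      rw [e3]
      omega
  · -- vertices after the current one
    have h7 : ¬ v ≤ I K (n + 1) := by omega
    have h8 : ¬ v ≤ I K n := by omega
    have e2 : Dg K n v = early K v + (if 2 ≤ v ∧ v < n then 1 else 0) + (n + 1 - T K (v - 1)) := by
      unfold Dg
      rw [if_neg (show ¬ (v = 0 ∨ n < v) by omega), if_neg h8]
    have e3 : Dg K (n + 1) v =
        early K v + (if 2 ≤ v ∧ v < n + 1 then 1 else 0) + (n + 1 + 1 - T K (v - 1)) := by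
      unfold Dg
      rw [if_neg (show ¬ (v = 0 ∨ n + 1 < v) by omega), if_neg h7]
    rw [e2, e3, if_neg (show ¬ (c = v ∨ n + 1 = v) by omega),
      if_pos (show 2 ≤ v ∧ v < n + 1 by omega)]
    rcases Nat.lt_or_ge (c + 1) v with h9 | h9
    · have h10 : T K c < T K (v - 1) := T_strict hK (by omega)
      rw [if_neg (show ¬ (T K c = n + 1 ∧ (c + 1 = v ∨ n + 1 = v)) by omega)]
      split_ifs <;> omega
    · have h10 : v - 1 = c := by omega
      have h11 : c + 1 = v := by omega
      rw [h10]
      by_cases h6 : T K c = n + 1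
      · rw [if_pos (show T K c = n + 1 ∧ (c + 1 = v ∨ n + 1 = v) from ⟨h6, Or.inl h11⟩), h6]
        split_ifs <;> omega
      · rw [if_neg (show ¬ (T K c = n + 1 ∧ (c + 1 = v ∨ n + 1 = v)) from fun h => h6 h.1)]
        split_ifs <;> omega

/-! ### The spiral -/

lemma deg_insert {E : Finset (ℕ × ℕ)} {e : ℕ × ℕ} (he : e ∉ E) (v : ℕ) :
    deg (insert e E) v = deg E v + if e.1 = v ∨ e.2 = v then 1 else 0 := by
  unfold deg
  rw [Finset.filter_insert]
  split_ifs with h
  · rw [Finset.card_insert_of_notMem (by simp [he])]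
  · rfl

lemma firstOpen_eq {K : ℕ} (hK : 3 ≤ K) {n : ℕ} (hn : 2 ≤ n) {E : Finset (ℕ × ℕ)}
    (hE : ∀ v, deg E v = Dg K n v) : firstOpen (K + 4) E = I K n + 1 := by
  unfold firstOpen
  apply le_antisymm
  · apply Nat.sInf_le
    exact ⟨by omega, by rw [hE]; exact Dg_open hK hn⟩
  · apply le_csInf
    · exact ⟨I K n + 1, by omega, by rw [hE]; exact Dg_open hK hn⟩
    · rintro v ⟨hv1, hv2⟩
      by_contra hcon
      rw [hE, Dg_closed hv1 (by omega)] at hv2
      omega

/-- The invariants of the spiral. -/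
lemma spiral_inv {K : ℕ} (hK : 3 ≤ K) : ∀ n : ℕ, 2 ≤ n →
    (∀ e ∈ spiral (K + 4) n, 1 ≤ e.1 ∧ e.1 < e.2 ∧ e.2 ≤ n) ∧
    (∀ v, deg (spiral (K + 4) n) v = Dg K n v) ∧
    (spiral (K + 4) n).card + 3 = 2 * n + I K n := by
  intro n hn
  induction n, hn using Nat.le_induction with
  | base =>
    have h0 : firstOpen (K + 4) ∅ = 1 := by
      unfold firstOpen
      apply le_antisymm
      · apply Nat.sInf_le
        exact ⟨le_rfl, by simp [deg]⟩
      · apply le_csInf
        · exact ⟨1, le_rfl, by simp [deg]⟩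
        · rintro v ⟨hv, -⟩
          exact hv
    have h1 : spiral (K + 4) 2 = {(1, 2)} := by
      show addVertex (K + 4) (0 + 1) (firstOpen (K + 4) ∅) ∅ = {(1, 2)}
      rw [h0]
      unfold addVertex
      have h2 : insert ((0 : ℕ) + 1, 0 + 1 + 1) (insert (1, 0 + 1 + 1) ∅) =
          ({(1, 2)} : Finset (ℕ × ℕ)) := by decide
      rw [h2, if_neg]
      have h3 : deg ({(1, 2)} : Finset (ℕ × ℕ)) 1 = 1 := by decide
      rw [h3]
      omega
    rw [h1]
    refine ⟨?_, ?_, ?_⟩
    · intro e he
      rw [Finset.mem_singleton] at he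
      subst he
      norm_num
    · intro v
      rw [show ({(1, 2)} : Finset (ℕ × ℕ)) = insert (1, 2) ∅ from rfl,
        deg_insert (Finset.notMem_empty _)]
      have h4 : deg ∅ v = 0 := by simp [deg]
      rw [h4]
      unfold Dg
      rw [I_two hK]
      rcases Nat.lt_or_ge v 3 with h | h
      · interval_cases v
        · simp
        · simp [early, T_zero]
        · simp [early, T_one hK]
      · rw [if_neg (by simp; omega), if_pos (by omega)]
    · rw [I_two hK]
      simp
  | succ n hn ih =>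
    obtain ⟨hE, hdeg, hcard⟩ := ih
    obtain ⟨m, rfl⟩ : ∃ m, n = m + 1 := ⟨n - 1, by omega⟩
    set E := spiral (K + 4) (m + 1) with hEdef
    have hc := firstOpen_eq hK hn hdeg
    set c := firstOpen (K + 4) E with hcdef
    have hsp : spiral (K + 4) (m + 1 + 1) = addVertex (K + 4) (m + 1) c E := rfl
    rw [hsp]
    have h1 := I_le_sub hK hn
    have hn1 : (c, m + 1 + 1) ∉ E := fun h => by have := (hE _ h).2.2; simp at this
    have hn2 : (m + 1, m + 1 + 1) ∉ insert (c, m + 1 + 1) E := by
      rw [Finset.mem_insert]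
      rintro (h | h)
      · rw [Prod.mk.injEq] at h
        omega
      · have := (hE _ h).2.2
        simp at this
    have hn3 : (c + 1, m + 1 + 1) ∉ insert (m + 1, m + 1 + 1) (insert (c, m + 1 + 1) E) ∨
        c + 1 = m + 1 := by
      by_cases h : c + 1 = m + 1
      · exact Or.inr h
      · left
        rw [Finset.mem_insert, Finset.mem_insert]
        rintro (h2 | h2 | h2)
        · rw [Prod.mk.injEq] at h2
          omega
        · rw [Prod.mk.injEq] at h2
          omega
        · have := (hE _ h2).2.2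
          simp at this
    have hTc : 2 * c + 6 ≤ T K c := T_ge hK (by omega)
    have hmono := I_mono hK hn
    have hsucc := I_succ_le hK hn
    have hI2 : I K (m + 1) + 1 ≤ I K (m + 1 + 1) ↔ T K c ≤ m + 1 + 1 := by
      rw [hc]
      exact galois hK (by omega) (by omega)
    have h4 : ¬ T K c ≤ m + 1 := by
      rw [hc, ← galois hK (by omega) hn]
      omega
    -- the degree of `c` after the two insertions
    have hdc : deg (insert (m + 1, m + 1 + 1) (insert (c, m + 1 + 1) E)) c = K + 4 ↔
        T K c = m + 1 + 1 := by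
      rw [deg_insert hn2, deg_insert hn1, hdeg c]
      have hs := Dg_step hK hn hc (v := c)
      rw [if_neg (show ¬ (T K c = m + 1 + 1 ∧ (c + 1 = c ∨ m + 1 + 1 = c)) by omega),
        if_neg (show ¬ (m + 1 = c ∨ m + 1 + 1 = c) by omega),
        if_pos (show c = c ∨ m + 1 + 1 = c by omega)] at hs
      rw [if_pos (show (c, m + 1 + 1).1 = c ∨ (c, m + 1 + 1).2 = c from Or.inl rfl),
        if_neg (show ¬ ((m + 1, m + 1 + 1).1 = c ∨ (m + 1, m + 1 + 1).2 = c) by
          simp only; omega)]
      constructor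
      · intro h
        by_contra hne
        have h5 : ¬ (I K (m + 1) + 1 ≤ I K (m + 1 + 1)) := by
          rw [hI2]
          omega
        have h6 : I K (m + 1 + 1) + 1 = c := by omega
        have h7 := Dg_open hK (n := m + 1 + 1) (by omega)
        rw [h6] at h7
        omega
      · intro h
        have h5 := hI2.2 h.le
        have h6 : Dg K (m + 1 + 1) c = K + 4 := Dg_closed (by omega) (by omega)
        omega
    unfold addVertex
    by_cases hcl : T K c = m + 1 + 1
    · rw [if_pos (hdc.2 hcl)]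
      have hn3' : (c + 1, m + 1 + 1) ∉ insert (m + 1, m + 1 + 1) (insert (c, m + 1 + 1) E) := by
        rcases hn3 with h | h
        · exact h
        · omega
      have h5 := hI2.2 hcl.le
      refine ⟨?_, ?_, ?_⟩
      · intro e he
        rw [Finset.mem_insert, Finset.mem_insert, Finset.mem_insert] at he
        rcases he with rfl | rfl | rfl | he
        · simp only; omega
        · simp only; omega
        · simp only; omega
        · have := hE e he
          omega
      · intro v
        rw [deg_insert hn3', deg_insert hn2, deg_insert hn1, hdeg v, Dg_step hK hn hc]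
        simp only [hcl, true_and]
        ring
      · rw [Finset.card_insert_of_notMem hn3', Finset.card_insert_of_notMem hn2,
          Finset.card_insert_of_notMem hn1]
        omega
    · rw [if_neg (fun h => hcl (hdc.1 h))]
      have h5 : ¬ (I K (m + 1) + 1 ≤ I K (m + 1 + 1)) := by
        rw [hI2]
        omega
      refine ⟨?_, ?_, ?_⟩
      · intro e he
        rw [Finset.mem_insert, Finset.mem_insert] at he
        rcases he with rfl | rfl | he
        · simp only; omega
        · simp only; omega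
        · have := hE e he
          omega
      · intro v
        rw [deg_insert hn2, deg_insert hn1, hdeg v, Dg_step hK hn hc]
        rw [if_neg (show ¬ (T K c = m + 1 + 1 ∧ (c + 1 = v ∨ m + 1 + 1 = v)) from
          fun h => hcl h.1)]
        dsimp only
        ring
      · rw [Finset.card_insert_of_notMem hn2, Finset.card_insert_of_notMem hn1]
        omega

/-- The number of edges of the spiral on `n` vertices is `2 n - 3 + I n`. -/
lemma card_spiral {K : ℕ} (hK : 3 ≤ K) {n : ℕ} (hn : 1 ≤ n) :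
    (spiral (K + 4) n).card + 3 = 2 * n + I K n := by
  rcases Nat.lt_or_ge n 2 with h | h
  · have : n = 1 := by omega
    subst this
    rw [I_one hK]
    rfl
  · exact (spiral_inv hK n h).2.2

/-! ### The bound `U` -/

/-- The angle of the equilateral hyperbolic triangle of side `d`. -/
noncomputable def alpha (d : ℝ) : ℝ := Real.arccos (Real.tanh (d / 2) / Real.tanh d)

/-- The bound `U_d(n)`. -/
noncomputable def U (d : ℝ) (n : ℕ) : ℝ :=
  Real.pi / alpha d * n - Real.sqrt ((Real.pi / alpha d - 1) * (Real.pi / alpha d - 3) * n ^ 2 +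
    6 * (Real.pi / alpha d - 1) * n - 2 * Real.pi / alpha d + 3)

lemma floor_aux {K : ℕ} (hK : 3 ≤ K) {n : ℕ} (hn : 1 ≤ n) {p : ℝ} (hp : p = ((K + 4 : ℕ) : ℝ) / 2) :
    ((2 * n + I K n : ℕ) : ℝ) - 3 ≤
        p * n - Real.sqrt ((p - 1) * (p - 3) * n ^ 2 + 6 * (p - 1) * n - 2 * p + 3) ∧
      p * n - Real.sqrt ((p - 1) * (p - 3) * n ^ 2 + 6 * (p - 1) * n - 2 * p + 3) <
        ((2 * n + I K n : ℕ) : ℝ) - 3 + 1 := by
  have h1 : (0 : ℝ) ≤ ((f K (I K n) n : ℤ) : ℝ) := by exact_mod_cast f_I hK n
  have h2 : ((f K (I K n + 1) n : ℤ) : ℝ) < 0 := by exact_mod_cast f_I_succ hK hn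
  unfold f at h1 h2
  push_cast at h1 h2 hp ⊢
  have hK' : (3 : ℝ) ≤ K := by exact_mod_cast hK
  have hI : ((I K n : ℕ) : ℝ) ≤ n := by exact_mod_cast I_le K n
  have hn' : (1 : ℝ) ≤ n := by exact_mod_cast hn
  have hI0 : (0 : ℝ) ≤ (I K n : ℕ) := by positivity
  generalize ((I K n : ℕ) : ℝ) = i at *
  have hKn : (3 : ℝ) * n ≤ K * n := mul_le_mul_of_nonneg_right hK' (by linarith)
  constructor
  · have h3 : Real.sqrt ((p - 1) * (p - 3) * (n : ℝ) ^ 2 + 6 * (p - 1) * n - 2 * p + 3) ≤
        p * n - (2 * n + i - 3) := by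
      apply Real.sqrt_le_iff.2
      constructor
      · rw [hp]; nlinarith
      · rw [hp]
        nlinarith
    linarith
  · have h3 : p * n - (2 * n + i - 3) - 1 <
        Real.sqrt ((p - 1) * (p - 3) * (n : ℝ) ^ 2 + 6 * (p - 1) * n - 2 * p + 3) := by
      apply Real.lt_sqrt_of_sq_lt
      rw [hp]
      nlinarith
    linarith

/-- **Main theorem.** For all `k ≥ 7` and `n ≥ 1` the spiral with `n` vertices in the order-`k`
triangular tiling has exactly `⌊U_{d(k)}(n)⌋` edges. Here `d = d(k)` is characterised by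
`α(d) = 2 π / k`. The spiral is a simple graph on `{1, …, n}` in which all degrees are at most `k`,
and every vertex has degree exactly `k` once `n` is large enough. -/
theorem result (k : ℕ) (hk : 7 ≤ k) :
    (∀ d : ℝ, 0 < d → alpha d = 2 * Real.pi / k → ∀ n : ℕ, 1 ≤ n →
      ((spiral k n).card : ℤ) = ⌊U d n⌋) ∧
    (∀ n : ℕ, ∀ e ∈ spiral k n, 1 ≤ e.1 ∧ e.1 < e.2 ∧ e.2 ≤ n) ∧
    (∀ n v : ℕ, deg (spiral k n) v ≤ k) ∧
    (∀ v : ℕ, 1 ≤ v → ∃ n₀ : ℕ, ∀ n : ℕ, n₀ ≤ n → deg (spiral k n) v = k) := by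
  obtain ⟨K, rfl⟩ : ∃ K, k = K + 4 := ⟨k - 4, by omega⟩
  have hK : 3 ≤ K := by omega
  refine ⟨?_, ?_, ?_, ?_⟩
  · intro d _ hα n hn
    have hpi : (Real.pi : ℝ) ≠ 0 := Real.pi_ne_zero
    have hk0 : ((K + 4 : ℕ) : ℝ) ≠ 0 := by positivity
    have hp : Real.pi / alpha d = ((K + 4 : ℕ) : ℝ) / 2 := by
      rw [hα]
      field_simp
    have hU : U d n = Real.pi / alpha d * n - Real.sqrt ((Real.pi / alpha d - 1) *
        (Real.pi / alpha d - 3) * n ^ 2 + 6 * (Real.pi / alpha d - 1) * n -
        2 * (Real.pi / alpha d) + 3) := by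
      unfold U
      rw [mul_div_assoc]
    obtain ⟨h1, h2⟩ := floor_aux hK hn hp
    rw [← hU] at h1 h2
    symm
    rw [Int.floor_eq_iff]
    have hc := card_spiral hK hn
    have hc' : (((spiral (K + 4) n).card : ℤ) : ℝ) = ((2 * n + I K n : ℕ) : ℝ) - 3 := by
      rw [← hc]
      push_cast
      ring
    rw [hc']
    exact ⟨h1, h2⟩
  · intro n e he
    rcases Nat.lt_or_ge n 2 with h | h
    · interval_cases n
      · simp [spiral] at he
      · simp [spiral] at he
    · exact (spiral_inv hK n h).1 e he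
  · intro n v
    rcases Nat.lt_or_ge n 2 with h | h
    · interval_cases n
      · simp [spiral, deg]
      · simp [spiral, deg]
    · rw [(spiral_inv hK n h).2.1 v]
      -- by monotonicity: closed vertices have degree `K + 4`
      rcases Nat.eq_zero_or_pos v with hv | hv
      · subst hv
        unfold Dg
        simp
      · rcases Nat.lt_or_ge n v with h3 | h3
        · unfold Dg
          rw [if_pos (Or.inr h3)]
          omega
        · rcases Nat.lt_or_ge (I K n) v with h4 | h4
          · have h5 : ¬ T K v ≤ n := by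
              rw [← galois hK hv h]
              omega
            have hg := gap hK hv
            unfold Dg
            rw [if_neg (by omega), if_neg (by omega)]
            obtain ⟨hg1, hg2⟩ := hg
            split_ifs at hg1 ⊢ <;> omega
          · rw [Dg_closed hv h4]
  · intro v hv
    refine ⟨T K v, fun n hn => ?_⟩
    have h1 := T_ge hK hv
    rw [(spiral_inv hK n (by omega)).2.1 v]
    exact Dg_closed hv ((galois hK hv (by omega)).2 hn)

end Pool.Agent.Results.MP_780082_co.SpiralCount
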